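import Mathlib
import Pool.Agent.Results.MP_b39683_an.Counter

namespace Pool.Agent.Results.MP_3f33d0_an.Counter

open scoped ComplexOrder ENNReal

section defs

variable {G X : Type} [AddGroup G] [NormedAddCommGroup X] [NormedSpace ℂ X]

/-- `J` presents the Banach space `X` as a Banach function space on the discrete group `G` that is
invariant under left and right translations. -/
def IsInvBFS (J : X →ₗ[ℂ] (G → ℂ)) : Prop :=
  CompleteSpace X ∧ Function.Injective J ∧
    (∀ (f : X) (g : G → ℂ), (∀ s, ‖g s‖ ≤ ‖J f s‖) → ∃ h : X, J h = g ∧ ‖h‖ ≤ ‖f‖) ∧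
    (∀ (t : G) (f : X), ∃ h : X, ∀ s, J h s = J f (-t + s)) ∧
    ∀ (t : G) (f : X), ∃ h : X, ∀ s, J h s = J f (s + t)

/-- Positive operators. -/
def Positive (J : X →ₗ[ℂ] (G → ℂ)) (S : X →L[ℂ] X) : Prop :=
  ∀ f, (∀ s, (J f s).im = 0 ∧ 0 ≤ (J f s).re) → ∀ s, (J (S f) s).im = 0 ∧ 0 ≤ (J (S f) s).re

/-- Regular operators: complex linear combinations of positive operators. -/
def Regular (J : X →ₗ[ℂ] (G → ℂ)) (T : X →L[ℂ] X) : Prop :=
  T ∈ Submodule.span ℂ {S : X →L[ℂ] X | Positive J S}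

/-- `T` commutes with all right translations `ρ_t f (s) = f (s + t)`. -/
def RightInv (J : X →ₗ[ℂ] (G → ℂ)) (T : X →L[ℂ] X) : Prop :=
  ∀ (t : G) (f h : X), (∀ s, J h s = J f (s + t)) → ∀ s, J (T h) s = J (T f) (s + t)

end defs

abbrev Γ := ℤ × ℤ

noncomputable def u (n : Γ) : ℝ := 2 ^ (|n.1| - |n.2|)

noncomputable def ω (r : Γ) : ℝ := 2 ^ (|r.1| + |r.2|)

theorem u_pos (n : Γ) : 0 < u n := zpow_pos two_pos _

theorem one_le_ω (r : Γ) : 1 ≤ ω r := one_le_zpow₀ one_le_two (by positivity)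

theorem u_le (n r : Γ) : u n ≤ ω r * u (n - r) := by
  rw [u, u, ω, ← zpow_add₀ two_ne_zero]
  refine zpow_le_zpow_right₀ one_le_two ?_
  simp only [Prod.fst_sub, Prod.snd_sub]
  have h1 := abs_sub_abs_le_abs_sub n.1 r.1
  have h2 := abs_sub n.2 r.2
  linarith

noncomputable def re {p : ℝ≥0∞} (hp : 0 < p.toReal) (e : Γ ≃ Γ) (f : lp (fun _ : Γ => ℂ) p) :
    lp (fun _ : Γ => ℂ) p :=
  ⟨fun n => f (e n), memℓp_gen ((e.summable_iff (f := fun x => ‖f x‖ ^ p.toReal)).2
    (lp.hasSum_norm hp f).summable)⟩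

theorem re_norm {p : ℝ≥0∞} (hp : 0 < p.toReal) (e : Γ ≃ Γ) (f : lp (fun _ : Γ => ℂ) p) :
    ‖re hp e f‖ = ‖f‖ := by
  rw [lp.norm_eq_tsum_rpow hp, lp.norm_eq_tsum_rpow hp]
  congr 1
  exact e.tsum_eq fun x => ‖f x‖ ^ p.toReal

noncomputable def XS : Submodule ℂ (lp (fun _ : Γ => ℂ) 2 × lp (fun _ : Γ => ℂ) 1) where
  carrier := {p | ∀ n, p.2 n = u n * p.1 n}
  add_mem' := fun {a b} ha hb n => by
    simp only [Prod.snd_add, Prod.fst_add, lp.coeFn_add, Pi.add_apply, ha n, hb n, mul_add]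
  zero_mem' := fun n => by simp
  smul_mem' := fun c a ha n => by
    simp only [Prod.smul_snd, Prod.smul_fst, lp.coeFn_smul, Pi.smul_apply, ha n, smul_eq_mul]
    ring

instance : CompleteSpace XS := by
  have h : IsClosed
      {p : lp (fun _ : Γ => ℂ) 2 × lp (fun _ : Γ => ℂ) 1 | ∀ n, p.2 n = u n * p.1 n} := by
    simp only [Set.ofPred_forall]
    exact isClosed_iInter fun n => isClosed_eq
      ((lp.evalCLM ℂ (fun _ : Γ => ℂ) 1 n).continuous.comp continuous_snd)
      (continuous_const.mul ((lp.evalCLM ℂ (fun _ : Γ => ℂ) 2 n).continuous.comp continuous_fst))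
  exact h.completeSpace_coe

noncomputable def J : XS →ₗ[ℂ] (Γ → ℂ) where
  toFun x := x.1.1
  map_add' _ _ := rfl
  map_smul' _ _ := rfl

theorem J_inj : Function.Injective J := fun x y h => by
  refine Subtype.ext (Prod.ext (lp.ext h) (lp.ext (funext fun n => ?_)))
  rw [x.2 n, y.2 n]
  exact congrArg _ (congrFun h n)

noncomputable def ev (n : Γ) : XS →L[ℂ] ℂ :=
  (lp.evalCLM ℂ (fun _ : Γ => ℂ) 2 n).comp ((ContinuousLinearMap.fst ℂ _ _).comp XS.subtypeL)

theorem ev_apply (n : Γ) (x : XS) : ev n x = J x n := rfl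

theorem build (g : Γ → ℂ) (a : lp (fun _ : Γ => ℂ) 2) (b : lp (fun _ : Γ => ℂ) 1)
    (ha : ∀ n, ‖g n‖ ≤ ‖a n‖) (hb : ∀ n, u n * ‖g n‖ ≤ ‖b n‖) :
    ∃ h : XS, J h = g ∧ ‖h‖ ≤ max ‖a‖ ‖b‖ := by
  have hb' : ∀ n, ‖u n * g n‖ ≤ ‖b n‖ := fun n => by
    rw [norm_mul, Complex.norm_real, Real.norm_of_nonneg (u_pos n).le]; exact hb n
  exact ⟨⟨(⟨g, (lp.memℓp a).mono' ha⟩, ⟨fun n => u n * g n, (lp.memℓp b).mono' hb'⟩),
    fun _ => rfl⟩, rfl, max_le_max (lp.norm_mono (by norm_num) ha) (lp.norm_mono (by norm_num) hb')⟩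

theorem snd_norm (x : XS) (n : Γ) : ‖x.1.2 n‖ = u n * ‖J x n‖ := by
  rw [x.2 n, norm_mul, Complex.norm_real, Real.norm_of_nonneg (u_pos n).le]; rfl

theorem opOf {Y : Type} [NormedAddCommGroup Y] [NormedSpace ℂ Y] (Φ : Y →ₗ[ℂ] (Γ → ℂ)) (C : ℝ)
    (hC : 0 ≤ C) (h : ∀ y, ∃ x : XS, J x = Φ y ∧ ‖x‖ ≤ C * ‖y‖) :
    ∃ S : Y →L[ℂ] XS, ‖S‖ ≤ C ∧ ∀ y, J (S y) = Φ y := by
  choose φ h1 h2 using h
  exact ⟨LinearMap.mkContinuous
    { toFun := φ
      map_add' := fun x y => J_inj (by rw [map_add, h1, h1, h1, map_add])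
      map_smul' := fun c x => J_inj (by rw [map_smul, h1, h1, map_smul]; rfl) } C h2,
    LinearMap.mkContinuous_norm_le _ hC _, h1⟩

theorem exS (r : Γ) : ∃ S : XS →L[ℂ] XS, ‖S‖ ≤ ω r ∧ ∀ x n, J (S x) n = J x (n - r) := by
  obtain ⟨S, h1, h2⟩ := opOf ((LinearMap.funLeft ℂ ℂ fun n => n - r).comp J) (ω r)
    (zero_le_one.trans (one_le_ω r)) (fun x => by
      have h0 : 0 ≤ ω r := zero_le_one.trans (one_le_ω r)
      obtain ⟨h, e, hn⟩ := build (fun n => J x (n - r))
        (re (by norm_num) (Equiv.subRight r) x.1.1)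
        ((ω r : ℂ) • re (by norm_num) (Equiv.subRight r) x.1.2) (fun n => le_rfl) (fun n => by
          change _ ≤ ‖(ω r : ℂ) * x.1.2 (n - r)‖
          rw [norm_mul, snd_norm, Complex.norm_real, Real.norm_of_nonneg h0, ← mul_assoc]
          exact mul_le_mul_of_nonneg_right (u_le n r) (norm_nonneg _))
      refine ⟨h, e, hn.trans (max_le ?_ ?_)⟩
      · rw [re_norm]
        exact (norm_fst_le x.1).trans (le_mul_of_one_le_left (norm_nonneg _) (one_le_ω r))
      · rw [norm_smul, re_norm, Complex.norm_real, Real.norm_of_nonneg h0]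
        exact mul_le_mul_of_nonneg_left (norm_snd_le x.1) h0)
  exact ⟨S, h1, fun x n => congrFun (h2 x) n⟩

noncomputable def δ (n : Γ) : XS :=
  ⟨(lp.single 2 n 1, lp.single 1 n (u n)), fun m => by
    simp only [lp.single_apply, Pi.single_apply]; split_ifs with h <;> simp [h]⟩

theorem J_δ (n m : Γ) : J (δ n) m = if m = n then 1 else 0 := by
  change (lp.single 2 n 1 : lp (fun _ : Γ => ℂ) 2) m = _
  simp only [lp.single_apply, Pi.single_apply]

theorem δ_norm (n : Γ) (h : 1 ≤ u n) : ‖δ n‖ = u n := by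
  change max ‖(lp.single 2 n 1 : lp (fun _ : Γ => ℂ) 2)‖
    ‖(lp.single 1 n (u n) : lp (fun _ : Γ => ℂ) 1)‖ = _
  rw [lp.norm_single (by norm_num), lp.norm_single (by norm_num), norm_one, Complex.norm_real,
    Real.norm_of_nonneg (u_pos n).le, max_eq_right h]

theorem δ_sum (x : XS) : HasSum (fun n => J x n • δ n) x := by
  refine (Topology.IsInducing.subtypeVal.hasSum_iff (g := XS.subtype) _ _).1 ?_
  refine ((lp.hasSum_single (by norm_num) x.1.1).prodMk
    (lp.hasSum_single (by norm_num) x.1.2)).congr_fun fun n => ?_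
  refine Prod.ext ?_ ?_
  · change J x n • (lp.single 2 n 1 : lp (fun _ : Γ => ℂ) 2) = _
    rw [← lp.single_smul, smul_eq_mul, mul_one]; rfl
  · change J x n • (lp.single 1 n (u n) : lp (fun _ : Γ => ℂ) 1) = _
    rw [← lp.single_smul, smul_eq_mul, x.2 n, mul_comm]; rfl

theorem ext_δ {T T' : XS →L[ℂ] XS} (h : ∀ n, T (δ n) = T' (δ n)) : T = T' := by
  refine ContinuousLinearMap.ext fun x => ((δ_sum x).mapL T).unique ?_
  simpa only [map_smul, h] using (δ_sum x).mapL T'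

theorem decay {T : XS →L[ℂ] XS} {k : Γ → ℂ} (hk : ∀ n m, J (T (δ n)) m = k (m - n)) :
    Summable fun r => ‖k r‖ * ω r := by
  have bd : ∀ a b : ℤ, (a = 1 ∨ a = -1) → (b = 1 ∨ b = -1) → ∀ F : Finset Γ,
      ∑ r ∈ F, ‖k r‖ * 2 ^ (a * r.1 + b * r.2) ≤ ‖T‖ := by
    intro a b ha hb F
    obtain ⟨R, hR⟩ := (F.finite_toSet.image fun r : Γ => |r.1| + |r.2|).bddAbove
    have hR' : ∀ r ∈ F, |r.1| + |r.2| ≤ |R| := fun r hr =>
      (hR ⟨r, hr, rfl⟩).trans (le_abs_self R)
    have R0 := abs_nonneg R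
    generalize |R| = Q at hR' R0
    set n : Γ := (a * (2 * Q), -b * Q) with hn
    have un : u n = 2 ^ Q := by
      rw [u]; congr 1
      rcases ha with rfl | rfl <;> rcases hb with rfl | rfl <;> simp [hn, abs_of_nonneg R0] <;> ring
    have h1 := lp.sum_rpow_le_norm_rpow (p := 1) (by norm_num)
      (re (by norm_num) (Equiv.addLeft n) (T (δ n)).1.2) F
    rw [re_norm] at h1
    simp only [ENNReal.toReal_one, Real.rpow_one] at h1
    have h2 : ‖(T (δ n)).1.2‖ ≤ ‖T‖ * 2 ^ Q := by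
      rw [← un, ← δ_norm n (un ▸ one_le_zpow₀ one_le_two R0)]
      exact (norm_snd_le (T (δ n)).1).trans (T.le_opNorm _)
    refine le_of_mul_le_mul_right (le_trans (le_of_eq ?_) (h1.trans h2)) (zpow_pos two_pos Q)
    rw [Finset.sum_mul]
    refine Finset.sum_congr rfl fun r hr => ?_
    change _ = ‖(T (δ n)).1.2 (n + r)‖
    rw [snd_norm, hk, add_sub_cancel_left, mul_assoc, ← zpow_add₀ two_ne_zero, mul_comm, u]
    congr 2
    have := hR' r hr
    have h3 := abs_nonneg r.1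
    have h4 := abs_nonneg r.2
    have h5 := abs_le.1 (le_refl |r.1|)
    have h6 := abs_le.1 (le_refl |r.2|)
    rcases ha with rfl | rfl <;> rcases hb with rfl | rfl <;>
      simp only [hn, Prod.fst_add, Prod.snd_add, abs_eq_max_neg] <;> omega
  refine summable_of_sum_le (c := 4 * ‖T‖)
    (fun r => mul_nonneg (norm_nonneg _) (zero_le_one.trans (one_le_ω r))) fun F => ?_
  have h := add_le_add (add_le_add (bd 1 1 (by simp) (by simp) F) (bd 1 (-1) (by simp) (by simp) F))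
    (add_le_add (bd (-1) 1 (by simp) (by simp) F) (bd (-1) (-1) (by simp) (by simp) F))
  simp only [← Finset.sum_add_distrib, ← mul_add] at h
  refine le_trans (Finset.sum_le_sum fun r _ => mul_le_mul_of_nonneg_left ?_ (norm_nonneg _))
    (h.trans (by linarith))
  have p1 : (0 : ℝ) < 2 ^ (1 * r.1 + 1 * r.2) := by positivity
  have p2 : (0 : ℝ) < 2 ^ (1 * r.1 + -1 * r.2) := by positivity
  have p3 : (0 : ℝ) < 2 ^ (-1 * r.1 + 1 * r.2) := by positivity
  have p4 : (0 : ℝ) < 2 ^ (-1 * r.1 + -1 * r.2) := by positivity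
  rcases abs_choice r.1 with e1 | e1 <;> rcases abs_choice r.2 with e2 | e2 <;>
    simp only [ω, e1, e2, one_mul, neg_mul, neg_add] at p1 p2 p3 p4 ⊢ <;> linarith

theorem conv_abs {X : Type} [NormedAddCommGroup X] [NormedSpace ℂ X] [CompleteSpace X]
    (S : Γ → X →L[ℂ] X) (c : Γ → ℂ) {g : Γ → ℝ} (hg : Summable g)
    (h : ∀ r, ‖c r‖ * ‖S r‖ ≤ g r) :
    ∃ P : X →L[ℂ] X, ∀ (l : X →L[ℂ] ℂ) x, HasSum (fun r => c r * l (S r x)) (l (P x)) := by
  obtain ⟨P, hP⟩ : Summable fun r => c r • S r :=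
    Summable.of_norm_bounded hg fun r => (norm_smul _ _).trans_le (h r)
  refine ⟨P, fun l x => ?_⟩
  simpa using (hP.mapL (ContinuousLinearMap.apply ℂ X x)).mapL l

theorem conv {k : Γ → ℂ} (hk : Summable fun r => ‖k r‖ * ω r) (c : Γ → ℝ) (h0 : ∀ r, 0 ≤ c r)
    (h1 : ∀ r, c r ≤ ‖k r‖) :
    ∃ P : XS →L[ℂ] XS, Positive J P ∧ ∀ n m, J (P (δ n)) m = c (m - n) := by
  choose S hS hS' using exS
  obtain ⟨P, hP⟩ := conv_abs S (fun r => (c r : ℂ)) hk fun r => by
    rw [Complex.norm_real, Real.norm_of_nonneg (h0 r)]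
    exact mul_le_mul (h1 r) (hS r) (norm_nonneg _) (norm_nonneg _)
  have hv : ∀ x m, HasSum (fun r => (c r : ℂ) * J x (m - r)) (J (P x) m) := fun x m => by
    simpa only [ev_apply, hS'] using hP (ev m) x
  refine ⟨P, fun x hx m => ?_, fun n m => (hv _ m).unique ?_⟩
  · have := (hv x m).nonneg fun r => mul_nonneg (Complex.zero_le_real.2 (h0 r))
      (Complex.nonneg_iff.2 ⟨(hx _).2, (hx _).1.symm⟩)
    exact ⟨(Complex.nonneg_iff.1 this).2.symm, (Complex.nonneg_iff.1 this).1⟩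
  · have := hasSum_single (f := fun r => (c r : ℂ) * J (δ n) (m - r)) (m - n) fun r hr => by
      rw [J_δ, if_neg (fun e => hr (by rw [← e]; abel)), mul_zero]
    rwa [J_δ, if_pos (by abel), mul_one] at this

theorem all_reg (T : XS →L[ℂ] XS) (hT : RightInv J T) : Regular J T := by
  set k := J (T (δ 0)) with hk0
  have hk : ∀ n m, J (T (δ n)) m = k (m - n) := fun n m => by
    rw [sub_eq_add_neg]
    exact hT (-n) (δ 0) (δ n) (fun s => by simp only [J_δ, add_neg_eq_zero]) m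
  have hd := decay hk
  have a1 := fun r => abs_le.1 (Complex.abs_re_le_norm (k r))
  have a2 := fun r => abs_le.1 (Complex.abs_im_le_norm (k r))
  obtain ⟨P1, p1, q1⟩ := conv hd (fun r => max (k r).re 0) (fun _ => le_max_right _ _)
    fun r => max_le (a1 r).2 (norm_nonneg _)
  obtain ⟨P2, p2, q2⟩ := conv hd (fun r => max (-(k r).re) 0) (fun _ => le_max_right _ _)
    fun r => max_le (neg_le.1 (a1 r).1) (norm_nonneg _)
  obtain ⟨P3, p3, q3⟩ := conv hd (fun r => max (k r).im 0) (fun _ => le_max_right _ _)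
    fun r => max_le (a2 r).2 (norm_nonneg _)
  obtain ⟨P4, p4, q4⟩ := conv hd (fun r => max (-(k r).im) 0) (fun _ => le_max_right _ _)
    fun r => max_le (neg_le.1 (a2 r).1) (norm_nonneg _)
  have : T = P1 - P2 + Complex.I • (P3 - P4) := ext_δ fun n => J_inj (funext fun m => by
    simp only [add_apply, sub_apply, smul_apply, map_add, map_sub, map_smul, Pi.add_apply,
      Pi.sub_apply, Pi.smul_apply, hk, q1, q2, q3, q4, smul_eq_mul]
    rw [← Complex.ofReal_sub, ← Complex.ofReal_sub, max_zero_sub_max_neg_zero_eq_self,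
      max_zero_sub_max_neg_zero_eq_self, mul_comm, Complex.re_add_im])
  rw [this]
  exact Submodule.add_mem _ (Submodule.sub_mem _ (Submodule.subset_span p1)
    (Submodule.subset_span p2)) (Submodule.smul_mem _ _ (Submodule.sub_mem _
      (Submodule.subset_span p3) (Submodule.subset_span p4)))

open MP_b39683_an.Counter in
theorem non_reg : ∃ T : XS →L[ℂ] XS, ¬ Regular J T := by
  classical
  obtain ⟨G, _, hG, -, T0, hb, -, hT0⟩ := MP_b39683_an.Counter.result
  obtain ⟨T1, hT1⟩ := exists_op hb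
  obtain ⟨ι, hι⟩ := exists_injective_nat G
  let a : G → Γ := fun g => (0, (ι g : ℤ))
  have ha : Function.Injective a := fun g h e => hι (by simpa [a] using e)
  have ua : ∀ g, u (a g) = (1 / 2) ^ ι g := fun g => by simp [u, a]
  have geo : Summable fun g => (1 / 2 : ℝ) ^ ι g := summable_geometric_two.comp_injective hι
  have geo2 : ∑' g, (1 / 2 : ℝ) ^ ι g ≤ 2 := by
    exact (geo.tsum_le_tsum_of_inj ι hι (fun _ _ => by positivity) (fun _ => le_rfl)
      summable_geometric_two).trans tsum_geometric_two.le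
  let Φ : L2 G →ₗ[ℂ] (Γ → ℂ) :=
    { toFun := fun f => Function.extend a f 0
      map_add' := fun f g => funext fun n => by
        by_cases h : ∃ x, a x = n
        · obtain ⟨x, rfl⟩ := h
          simp [ha.extend_apply]
        · simp [Function.extend_apply' _ _ _ h]
      map_smul' := fun c f => funext fun n => by
        by_cases h : ∃ x, a x = n
        · obtain ⟨x, rfl⟩ := h
          simp [ha.extend_apply]
        · simp [Function.extend_apply' _ _ _ h] }
  have Φ1 : ∀ f x, Φ f (a x) = f x := fun f x => ha.extend_apply _ _ x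
  have Φ0 : ∀ f n, n ∉ Set.range a → Φ f n = 0 := fun f n h => Function.extend_apply' _ _ _ h
  obtain ⟨I, -, hI⟩ := opOf Φ 2 zero_le_two (fun f => by
    have s2 : HasSum (fun n => ‖Φ f n‖ ^ (2 : ℝ≥0∞).toReal) (‖f‖ ^ (2 : ℝ≥0∞).toReal) :=
      (ha.hasSum_iff (fun n hn => by simp [Φ0 f n hn])).1 (by
        simpa only [Function.comp_def, Φ1] using lp.hasSum_norm (p := 2) (by norm_num) f)
    have b1 : ∀ g, ‖(u (a g) : ℂ) * Φ f (a g)‖ ^ (1 : ℝ≥0∞).toReal ≤ (1 / 2) ^ ι g * ‖f‖ := by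
      intro g
      rw [ENNReal.toReal_one, Real.rpow_one, norm_mul, Φ1, Complex.norm_real,
        Real.norm_of_nonneg (u_pos _).le, ua]
      exact mul_le_mul_of_nonneg_left (lp.norm_apply_le_norm (by norm_num) f g) (by positivity)
    have s1 : Summable fun g => ‖(u (a g) : ℂ) * Φ f (a g)‖ ^ (1 : ℝ≥0∞).toReal :=
      Summable.of_nonneg_of_le (fun _ => by positivity) b1 (geo.mul_right _)
    have s1' := (ha.hasSum_iff (f := fun n => ‖(u n : ℂ) * Φ f n‖ ^ (1 : ℝ≥0∞).toReal)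
      (fun n hn => by simp [Φ0 f n hn])).1 s1.hasSum
    refine ⟨⟨(⟨Φ f, memℓp_gen s2.summable⟩, ⟨fun n => u n * Φ f n, memℓp_gen s1'.summable⟩),
      fun _ => rfl⟩, rfl, max_le ?_ ?_⟩
    · refine le_trans (lp.norm_le_of_tsum_le (by norm_num) (norm_nonneg f) s2.tsum_eq.le) ?_
      linarith [norm_nonneg f]
    · refine lp.norm_le_of_tsum_le (by norm_num) (by positivity) (s1'.tsum_eq.le.trans ?_)
      refine (s1.tsum_le_tsum b1 (geo.mul_right _)).trans ?_
      rw [tsum_mul_right, ENNReal.toReal_one, Real.rpow_one]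
      exact mul_le_mul_of_nonneg_right geo2 (norm_nonneg _))
  have hsq : ∀ x : XS, Summable fun g => ‖J x (a g)‖ ^ 2 := fun x =>
    (hs x.1.1).summable.comp_injective ha
  let P : XS →L[ℂ] L2 G := LinearMap.mkContinuous
    { toFun := fun x => mk (fun g => J x (a g)) (hsq x)
      map_add' := fun _ _ => rfl
      map_smul' := fun _ _ => rfl } 1 (fun x => by
        rw [one_mul]
        refine le_trans ((sq_le_sq₀ (norm_nonneg _) (norm_nonneg _)).1 ?_) (norm_fst_le x.1)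
        rw [← (hs _).tsum_eq, ← (hs x.1.1).tsum_eq]
        exact (hsq x).tsum_le_tsum_of_inj a ha (fun _ _ => by positivity) (fun _ => le_rfl)
          (hs x.1.1).summable)
  have hP : ∀ x g, P x g = J x (a g) := fun _ _ => rfl
  refine ⟨I.comp (T1.comp P), fun h => hT0 ?_⟩
  have key : ∀ T : XS →L[ℂ] XS, Regular J T →
      MP_b39683_an.Counter.Regular (toFn (P.comp (T.comp I))) := by
    intro T hT
    obtain ⟨n, c, S, e⟩ := Submodule.mem_span_set'.1 hT
    refine ⟨n, c, fun i => toFn (P.comp ((S i).1.comp I)), fun i => ⟨toFn_bdd _, ?_⟩, ?_⟩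
    · intro f hf h0 x
      have e1 : toFn (P.comp ((S i).1.comp I)) f x = J ((S i).1 (I (mk f hf))) (a x) :=
        congrFun (toFn_coe _ (mk f hf)) x
      beta_reduce
      rw [e1]
      refine (S i).2 _ (fun n => ?_) _
      rw [hI]
      by_cases hn : n ∈ Set.range a
      · obtain ⟨y, rfl⟩ := hn
        rw [Φ1]; exact h0 y
      · simp [Φ0 _ n hn]
    · intro f hf x
      have e1 : ∀ T : XS →L[ℂ] XS, toFn (P.comp (T.comp I)) f x = ev (a x) (T (I (mk f hf))) :=
        fun T => congrFun (toFn_coe _ (mk f hf)) x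
      simp only [e1, ← e, sum_apply, smul_apply, map_sum, map_smul, smul_eq_mul]
  obtain ⟨n, c, S, h1, h2⟩ := key _ h
  refine ⟨n, c, S, h1, fun f hf x => ?_⟩
  rw [← h2 f hf x]
  have e2 : P (I (mk f hf)) = mk f hf := lp.ext (funext fun g => by rw [hP, hI, Φ1])
  have e3 := congrFun (toFn_coe (P.comp ((I.comp (T1.comp P)).comp I)) (mk f hf)) x
  simp only [ContinuousLinearMap.comp_apply, hP, hI, Φ1, e2, hT1] at e3
  exact e3.symm

/-- A translation invariant Banach function space on `ℤ²` carrying a non-regular bounded operator,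
on which every bounded operator commuting with the translations is regular. -/
theorem result : ∃ (X : Type) (_ : NormedAddCommGroup X) (_ : NormedSpace ℂ X)
    (J : X →ₗ[ℂ] (ℤ × ℤ → ℂ)), IsInvBFS J ∧ (∃ T : X →L[ℂ] X, ¬ Regular J T) ∧
      ∀ T : X →L[ℂ] X, RightInv J T → Regular J T := by
  refine ⟨XS, inferInstance, inferInstance, J, ⟨inferInstance, J_inj, fun f g h => ?_,
    fun t f => ?_, fun t f => ?_⟩, non_reg, all_reg⟩
  · exact build g f.1.1 f.1.2 h fun n => by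
      rw [snd_norm]; exact mul_le_mul_of_nonneg_left (h n) (u_pos n).le
  · obtain ⟨S, -, h⟩ := exS t
    exact ⟨S f, fun s => by rw [h, neg_add_eq_sub]⟩
  · obtain ⟨S, -, h⟩ := exS (-t)
    exact ⟨S f, fun s => by rw [h, sub_neg_eq_add]⟩

end Pool.Agent.Results.MP_3f33d0_an.Counter
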